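import Pool.Agent.Results.MP_90787a_nt.UnicriticalNearPoints
import Pool.Agent.V11001.KM.Near
import Pool.Agent.V11001.KM.Zero

/-!
# MP_90787a_nt: uniform boundedness for ALL unicritical polynomials with heights near the powers of almost every number

Let `ν n / log n → ∞`, for example `ν n = n` or `ν n = n !`, and let `U` be a countable set of real numbers. There is a set
`E` of real numbers of Hausdorff dimension ZERO such that for all `z > 1` outside of `E`, all `θ < 1`, all `d ≥ 2` and all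
`D` there is `N` with the following property. For all `b > 0` in `U` and ALL but finitely many of the algebraic numbers `t` of
degree at most `D` and height `H(t)` with `|H(t) - b z ^ (ν n)| ≤ z ^ (θ ν n)` for some `n`:

* every polynomial `a x ^ d + b` with `a b ^ (d - 1) = t` has at most `N` preperiodic points `x` such that `ℚ(a, b, x)` has
  degree at most `D`;
* `|PrePer(a x ^ d + b, K)| ≤ N` for all number fields `K` of degree at most `D` and all `a`, `b` in `K` such that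
  `a b ^ (d - 1)` is mapped to `t` by some embedding of `K`.

The input is the starting result `FewExceptionalUnicritical`, with `O(X ^ ε)` exceptional `t` of height at most `X`.
-/

set_option autoImplicit false

open Module

namespace Pool.Agent.Results.MP_90787a_nt.HeightsNearPowers

open Pool.Agent.V11001.KM
open Pool.Agent.Results.MP_90787a_nt.FewExceptionalUnicritical (HeightLE preperiodic boundedDegree)
open Pool.Agent.Results.MP_90787a_nt.UnicriticalNearPoints (height AtMost mono mem)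

/-- the count of the exceptional numbers -/
theorem few (d : ℕ) (hd : 2 ≤ d) (D : ℕ) (ε : ℝ) (hε : 0 < ε) : ∃ (N : ℕ) (C : ℝ), ∀ X : ℝ, 1 ≤ X →
    {t : ℂ | ((∃ X : ℝ, HeightLE D X t) ∧ ¬ AtMost d D N t) ∧ (height D t : ℝ) ≤ X}.Finite ∧
      ({t : ℂ | ((∃ X : ℝ, HeightLE D X t) ∧ ¬ AtMost d D N t) ∧ (height D t : ℝ) ≤ X}.ncard : ℝ) ≤ C * X ^ ε := by
  obtain ⟨N, C, E, g1, g2, g3⟩ := Pool.Agent.Results.MP_90787a_nt.FewExceptionalUnicritical.result d hd D ε hε
  refine ⟨N, C, fun X hX => ?_⟩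
  obtain ⟨g4, g5⟩ := g1 X hX
  have hsub : {t : ℂ | ((∃ X : ℝ, HeightLE D X t) ∧ ¬ AtMost d D N t) ∧ (height D t : ℝ) ≤ X} ⊆
      {t | t ∈ E ∧ HeightLE D X t} := by
    rintro t ⟨⟨ht1, ht2⟩, ht3⟩
    refine ⟨?_, mono (mem ht1).2 ht3⟩
    by_contra htE
    apply ht2
    exact ⟨fun a b hab => g2 a b (by rw [hab]; exact htE),
      fun K _ _ hK σ a b hab => g3 K hK σ a b (by rw [hab]; exact htE)⟩
  exact ⟨g4.subset hsub, le_trans (by exact_mod_cast Set.ncard_le_ncard hsub g4) g5⟩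

/-- **Theorem.** Let `ν n / log n → ∞` and let `U` be a countable set of real numbers. There is a set `E` of Hausdorff
dimension zero such that for all `z > 1` outside of `E`, all `θ < 1`, all `d ≥ 2` and all `D` there is `N` such that for all
`b > 0` in `U` and all algebraic numbers `t` of degree at most `D` and height `H(t)` with
`|H(t) - b z ^ (ν n)| ≤ z ^ (θ ν n)` for some `n`, with finitely many exceptions, `AtMost d D N t` holds. -/
theorem result (ν : ℕ → ℝ) (hν : Fast ν) (U : Set ℝ) (hU : U.Countable) :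
    ∃ E : Set ℝ, dimH E = 0 ∧ ∀ z : ℝ, 1 < z → z ∉ E → ∀ θ : ℝ, θ < 1 → ∀ d : ℕ, 2 ≤ d → ∀ D : ℕ, ∃ N : ℕ,
      ∀ b ∈ U, 0 < b →
        {t : ℂ | (∃ X : ℝ, HeightLE D X t) ∧ Near ν θ b z (height D t) ∧ ¬ AtMost d D N t}.Finite := by
  choose N C hC using fun (q : {d : ℕ // 2 ≤ d} × ℕ) (j : ℕ) =>
    few q.1.1 q.1.2 q.2 (1 / ((j : ℝ) + 1)) (by positivity)
  obtain ⟨E, h1, h2⟩ := zero_family (T := ℕ × ℂ) (Q := {d : ℕ // 2 ≤ d} × ℕ) (J := Unit)
    (fun p => (height p.1 p.2 : ℝ)) hν U hU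
    (fun q j _ => {p : ℕ × ℂ | p.1 = q.2 ∧ (∃ X : ℝ, HeightLE q.2 X p.2) ∧ ¬ AtMost q.1.1 q.2 (N q j) p.2})
    (fun q j _ => by
      refine ⟨C q j, fun X hX => ?_⟩
      obtain ⟨g1, g2⟩ := hC q j X hX
      have heq : {p : ℕ × ℂ | p ∈ {p : ℕ × ℂ | p.1 = q.2 ∧ (∃ X : ℝ, HeightLE q.2 X p.2) ∧
          ¬ AtMost q.1.1 q.2 (N q j) p.2} ∧ (height p.1 p.2 : ℝ) ≤ X} =
          (fun t : ℂ => (q.2, t)) '' {t : ℂ | ((∃ X : ℝ, HeightLE q.2 X t) ∧ ¬ AtMost q.1.1 q.2 (N q j) t) ∧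
            (height q.2 t : ℝ) ≤ X} := by
        ext p
        constructor
        · rintro ⟨⟨h1, h2, h3⟩, h4⟩
          obtain ⟨D, t⟩ := p
          simp only at h1 h2 h3 h4
          subst h1
          exact ⟨t, ⟨⟨h2, h3⟩, h4⟩, rfl⟩
        · rintro ⟨t, ⟨⟨h2, h3⟩, h4⟩, rfl⟩
          exact ⟨⟨rfl, h2, h3⟩, h4⟩
      rw [heq]
      refine ⟨g1.image _, ?_⟩
      rw [Set.ncard_image_of_injective _ (fun s t h => (Prod.mk.inj h).2)]
      exact g2)
  refine ⟨E, h1, fun z hz hzE θ hθ d hd D => ?_⟩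
  obtain ⟨j, hj⟩ := h2 z hz hzE θ hθ (⟨d, hd⟩, D)
  refine ⟨N (⟨d, hd⟩, D) j, fun b hb hb0 => ?_⟩
  have h3 := hj b hb hb0 ()
  have hinj : Function.Injective (fun t : ℂ => ((D, t) : ℕ × ℂ)) := fun s t h => (Prod.mk.inj h).2
  refine (h3.preimage hinj.injOn).subset ?_
  rintro t ⟨ht1, ht2, ht3⟩
  exact ⟨⟨rfl, ht1, ht3⟩, ht2⟩

end Pool.Agent.Results.MP_90787a_nt.HeightsNearPowers
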