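import Pool.Agent.Results.MP_90787a_nt.FewExceptionalUnicritical
import Pool.Agent.H107.EpsZero2

/-!
# MP_90787a_nt: uniform boundedness for unicritical polynomials close to almost every point

There is a set `E` of complex numbers of Hausdorff dimension zero such that for ALL complex numbers `z` outside of `E` and
all `d ≥ 2`, `D ≥ 1` and `w > 0` (arbitrarily small) there is `N` with the following property. For all but finitely many
of the algebraic numbers `t` of degree at most `D` and (naive) height `H(t)` with `|t - z| ≤ H(t) ^ (-w)`: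

* every polynomial `a z ^ d + b` with `a b ^ (d - 1) = t` has at most `N` preperiodic points `z` such that `ℚ(a, b, z)` has
  degree at most `D`;
* in particular `|PrePer(a z ^ d + b, K)| ≤ N` for all number fields `K` of degree at most `D` and all `a`, `b` in `K` such
  that `a b ^ (d - 1)` is mapped to `t` by some embedding of `K`.

So the uniform boundedness conjecture holds for these polynomials in some neighbourhood of almost every point (which
shrinks with the height, at any polynomial rate). Instead of `ℂ` one can use any other metric: the theorem is stated for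
arbitrary maps `φ` from `ℂ` to a metric space, for example to a `p`-adic field.

The input is the starting result `FewExceptionalUnicritical`, with `O(X ^ ε)` exceptional `t` of height at most `X`.
-/

set_option autoImplicit false

open Module

namespace Pool.Agent.Results.MP_90787a_nt.UnicriticalNearPoints

open Pool.Agent.Results.MP_90787a_nt.FewExceptionalUnicritical (HeightLE preperiodic boundedDegree)

/-- the height of a number `t` which is algebraic of degree at most `D`: the smallest integer `X ≥ 1` such that `t` is a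
root of a nonzero integral polynomial of degree at most `D` with coefficients at most `X` in absolute value -/
noncomputable def height (D : ℕ) (t : ℂ) : ℕ := sInf {X : ℕ | 1 ≤ X ∧ HeightLE D X t}

/-- the polynomials `a z ^ d + b` with `a b ^ (d - 1) = t` have at most `N` preperiodic points `z` such that `a`, `b`, `z`
generate a number field of degree at most `D`; and at most `N` preperiodic points in `K`, for number fields `K` of degree
at most `D`, `a`, `b` in `K` and `a b ^ (d - 1)` mapped to `t` by an embedding of `K` -/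
def AtMost (d D N : ℕ) (t : ℂ) : Prop :=
  (∀ a b : ℂ, a * b ^ (d - 1) = t → (preperiodic d a b ∩ boundedDegree D a b).Finite ∧
    (preperiodic d a b ∩ boundedDegree D a b).ncard ≤ N) ∧
  ∀ (K : Type) [Field K] [NumberField K], finrank ℚ K ≤ D → ∀ (σ : K →+* ℂ) (a b : K),
    σ (a * b ^ (d - 1)) = t → (preperiodic d a b).Finite ∧ (preperiodic d a b).ncard ≤ N

lemma mono {D : ℕ} {X Y : ℝ} {t : ℂ} (h : HeightLE D X t) (hXY : X ≤ Y) : HeightLE D Y t := by
  obtain ⟨P, h1, h2, h3, h4⟩ := h
  exact ⟨P, h1, h2, fun i => (h3 i).trans hXY, h4⟩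

lemma mem {D : ℕ} {t : ℂ} (h : ∃ X : ℝ, HeightLE D X t) : 1 ≤ height D t ∧ HeightLE D (height D t) t := by
  have hne : {X : ℕ | 1 ≤ X ∧ HeightLE D X t}.Nonempty := by
    obtain ⟨X, hX⟩ := h
    refine ⟨max 1 ⌈X⌉₊, le_max_left _ _, mono hX ?_⟩
    push_cast
    exact (Nat.le_ceil X).trans (le_max_right _ _)
  exact Nat.sInf_mem hne

/-- **Theorem.** For all maps `φ` from `ℂ` to a metric space `M` there is a set `E` of Hausdorff dimension zero such that
for all `z` outside of `E`, all `d ≥ 2`, `D` and `w > 0` there is `N` such that for all algebraic numbers `t` of degree at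
most `D` with `dist (φ t, z) ≤ H(t) ^ (-w)`, with finitely many exceptions, `AtMost d D N t` holds. -/
theorem result (M : Type) [MetricSpace M] (φ : ℂ → M) :
    ∃ E : Set M, dimH E = 0 ∧ ∀ z ∉ E, ∀ d : ℕ, 2 ≤ d → ∀ D : ℕ, ∀ w : ℝ, 0 < w → ∃ N : ℕ,
      {t : ℂ | (∃ X : ℝ, HeightLE D X t) ∧ dist (φ t) z ≤ (height D t : ℝ) ^ (-w) ∧ ¬ AtMost d D N t}.Finite := by
  obtain ⟨E, h1, h2⟩ := Pool.Agent.H107.ME.dim_zero_countable (ι := {d : ℕ // 2 ≤ d} × ℕ) (fun _ => φ)
    (fun i t => max 1 ((height i.2 t : ℕ) : ℝ)) (fun i t => le_max_left _ _)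
    (fun i N => {t : ℂ | (∃ X : ℝ, HeightLE i.2 X t) ∧ ¬ AtMost i.1.1 i.2 N t}) (fun i ε hε => by
      obtain ⟨N, C, E, g1, g2, g3⟩ :=
        Pool.Agent.Results.MP_90787a_nt.FewExceptionalUnicritical.result i.1.1 i.1.2 i.2 ε hε
      refine ⟨N, C, fun X hX => ?_⟩
      obtain ⟨g4, g5⟩ := g1 X hX
      have hsub : {t | t ∈ {t : ℂ | (∃ X : ℝ, HeightLE i.2 X t) ∧ ¬ AtMost i.1.1 i.2 N t} ∧
          max 1 ((height i.2 t : ℕ) : ℝ) ≤ X} ⊆ {t | t ∈ E ∧ HeightLE i.2 X t} := by
        rintro t ⟨⟨ht1, ht2⟩, ht3⟩
        refine ⟨?_, mono (mem ht1).2 ((le_max_right _ _).trans ht3)⟩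
        by_contra htE
        apply ht2
        exact ⟨fun a b hab => g2 a b (by rw [hab]; exact htE),
          fun K _ _ hK σ a b hab => g3 K hK σ a b (by rw [hab]; exact htE)⟩
      exact ⟨g4.subset hsub, le_trans (by exact_mod_cast Set.ncard_le_ncard hsub g4) g5⟩)
  refine ⟨E, h1, fun z hz d hd D w hw => ?_⟩
  obtain ⟨N, hN⟩ := h2 z hz (⟨d, hd⟩, D) w hw
  refine ⟨N, hN.subset ?_⟩
  rintro t ⟨ht1, ht2, ht3⟩
  refine ⟨⟨ht1, ht3⟩, ?_⟩
  have h4 : (1 : ℝ) ≤ (height D t : ℝ) := by exact_mod_cast (mem ht1).1
  show dist (φ t) z ≤ (max 1 ((height D t : ℕ) : ℝ)) ^ (-w)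
  rw [max_eq_right h4]
  exact ht2

end Pool.Agent.Results.MP_90787a_nt.UnicriticalNearPoints
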